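import Mathlib

set_option autoImplicit false

namespace Pool.Agent.Results.MP_c852bb_co.Part

/-- `D` is a locating-dominating set of `G`. -/
def IsLD {V : Type} (G : SimpleGraph V) (D : Set V) : Prop :=
  (∀ v, v ∉ D → ∃ w ∈ D, G.Adj v w) ∧
    ∀ u v, u ∉ D → v ∉ D → u ≠ v → G.neighborSet u ∩ D ≠ G.neighborSet v ∩ D

/-- `X` and `Y` form an LD-coalition. -/
def Coal {V : Type} (G : SimpleGraph V) (X Y : Set V) : Prop :=
  Disjoint X Y ∧ ¬ IsLD G X ∧ ¬ IsLD G Y ∧ IsLD G (X ∪ Y)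

/-- `P` is an LDC-partition of `G`. -/
def IsLDC {V : Type} (G : SimpleGraph V) (P : Set (Set V)) : Prop :=
  Setoid.IsPartition P ∧ ∀ X ∈ P, ¬ IsLD G X ∧ ∃ Y ∈ P, Y ≠ X ∧ Coal G X Y

theorem single {V : Type} (G : SimpleGraph V) (x u v : V) (hu : u ≠ x) (hv : v ≠ x)
    (h : u ≠ v) : ¬ IsLD G {x} := by
  rintro ⟨h1, h2⟩
  obtain ⟨w, rfl, a1⟩ := h1 u hu
  obtain ⟨w', e, a2⟩ := h1 v hv
  rw [Set.mem_singleton_iff.1 e] at a2
  apply h2 u v hu hv h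
  rw [Set.inter_singleton_of_mem (s := G.neighborSet u) a1,
    Set.inter_singleton_of_mem (s := G.neighborSet v) a2]

theorem main {V : Type} [Finite V] (G : SimpleGraph V) (x : V) (hs : ∀ x, ¬ IsLD G {x}) :
    ∃ P, IsLDC G P := by
  obtain ⟨M, hxM, hM⟩ := Finite.exists_le_maximal (p := fun M => ¬ IsLD G M) (hs x)
  have hM1 : ¬ IsLD G M := hM.1
  have hM2 : ∀ y, y ∉ M → IsLD G (M ∪ {y}) := fun y hy => by
    by_contra hc
    exact hy (hM.2 hc Set.subset_union_left (Or.inr rfl))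
  obtain ⟨y, hy⟩ : ∃ y, y ∉ M := by
    by_contra hc
    push Not at hc
    exact hM1 ⟨fun v hv => (hv (hc v)).elim, fun u v hu => (hu (hc u)).elim⟩
  have hne : ∀ z, z ∉ M → ({z} : Set V) ≠ M := fun z hz e => hz (e ▸ rfl)
  refine ⟨insert M {X | ∃ z, z ∉ M ∧ X = {z}}, ⟨?_, fun a => ?_⟩, ?_⟩
  · rintro (h | ⟨z, -, h⟩)
    · have : x ∈ M := hxM rfl
      rw [← h] at this
      exact this
    · exact (Set.singleton_ne_empty z) h.symm
  · by_cases ha : a ∈ M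
    · refine ⟨M, ⟨Or.inl rfl, ha⟩, ?_⟩
      rintro X ⟨rfl | ⟨z, hz, rfl⟩, h⟩
      · rfl
      · exact (hz (h ▸ ha)).elim
    · refine ⟨{a}, ⟨Or.inr ⟨a, ha, rfl⟩, rfl⟩, ?_⟩
      rintro X ⟨rfl | ⟨z, hz, rfl⟩, h⟩
      · exact (ha h).elim
      · rw [Set.mem_singleton_iff.1 h]
  · rintro X (rfl | ⟨z, hz, rfl⟩)
    · exact ⟨hM1, {y}, Or.inr ⟨y, hy, rfl⟩, hne y hy,
        Set.disjoint_singleton_right.2 hy, hM1, hs y, hM2 y hy⟩
    · exact ⟨hs z, M, Or.inl rfl, (hne z hz).symm,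
        Set.disjoint_singleton_left.2 hz, hs z, hM1, Set.union_comm M {z} ▸ hM2 z hz⟩

theorem three {V : Type} [Fintype V] (G : SimpleGraph V) (h : 3 ≤ Fintype.card V) :
    ∃ P, IsLDC G P := by
  classical
  obtain ⟨a, b, c, hab, hac, hbc⟩ := Fintype.two_lt_card_iff.1 h
  refine main G a fun x => ?_
  by_cases h1 : a = x
  · exact single G x b c (h1 ▸ hab.symm) (h1 ▸ hac.symm) hbc
  by_cases h2 : b = x
  · exact single G x a c h1 (h2 ▸ hbc.symm) hac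
  · exact single G x a b h1 h2 hab

theorem result (V : Type) [Fintype V] (G : SimpleGraph V) :
    (G.Connected → G.diam = 2 → ∃ P, IsLDC G P) ∧ (3 ≤ Fintype.card V → ∃ P, IsLDC G P) := by
  refine ⟨fun hc hd => three G ?_, three G⟩
  have := hc.nonempty
  obtain ⟨u, v, huv⟩ := G.exists_dist_eq_diam
  obtain ⟨p, hp, hl⟩ := hc.exists_path_of_dist u v
  have := hp.length_lt
  omega

end Pool.Agent.Results.MP_c852bb_co.Part
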